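import Mathlib

open MeasureTheory Set Filter Topology
open scoped ENNReal

namespace Pool.Agent.Results.MP_d057eb_an.ShrinkingNeighbourhoods

/-- `log |z - w|` as an extended real, equal to `-∞` for `z = w`. -/
noncomputable def logDist (z w : ℂ) : EReal := ENNReal.log ‖z - w‖ₑ

/-- The energy `∬ log |z - w| dμ(w) dμ(z)`, as the difference of the integrals of the positive
and of the negative part (the former is finite for compactly supported finite measures). -/
noncomputable def energy (μ : Measure ℂ) : EReal :=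
  ((∫⁻ z, ∫⁻ w, (logDist z w).toENNReal ∂μ ∂μ : ℝ≥0∞) : EReal) -
    ((∫⁻ z, ∫⁻ w, (-logDist z w).toENNReal ∂μ ∂μ : ℝ≥0∞) : EReal)

/-- The logarithmic capacity `exp (sup_μ I(μ))`, the supremum over Borel probability measures
on `E`. -/
noncomputable def capacity (E : Set ℂ) : ℝ≥0∞ :=
  EReal.exp (⨆ (μ : Measure ℂ) (_ : IsProbabilityMeasure μ) (_ : μ Eᶜ = 0), energy μ)

/-- The `n`-th diameter. -/
noncomputable def nthDiameter (n : ℕ) (E : Set ℂ) : ℝ :=
  sSup {x | ∃ w : Fin n → ℂ, (∀ i, w i ∈ E) ∧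
    x = ∏ i, ∏ j ∈ Finset.Ioi i, ‖w i - w j‖ ^ (2 / ((n : ℝ) * (n - 1)))}

/-! ### Energies as Bochner integrals -/

/-- The real-valued kernel. -/
noncomputable def F (z w : ℂ) : ℝ := Real.log ‖z - w‖

lemma F_measurable : Measurable fun p : ℂ × ℂ => F p.1 p.2 := by
  unfold F
  fun_prop

lemma logDist_measurable : Measurable fun p : ℂ × ℂ => logDist p.1 p.2 := by
  unfold logDist
  have h : Measurable ENNReal.log := ENNReal.measurable_log
  exact h.comp (by fun_prop)

lemma logDist_of_ne {z w : ℂ} (h : z ≠ w) : logDist z w = (F z w : EReal) := by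
  unfold logDist F
  rw [← ofReal_norm, ENNReal.log_ofReal_of_pos (norm_pos_iff.2 (sub_ne_zero.2 h))]

lemma logDist_self (z : ℂ) : logDist z z = ⊥ := by
  unfold logDist
  simp

lemma pos_part {z w : ℂ} : (logDist z w).toENNReal = ENNReal.ofReal (F z w) := by
  by_cases h : z = w
  · subst h
    rw [logDist_self]
    simp [F]
  · rw [logDist_of_ne h, EReal.real_coe_toENNReal]

lemma neg_part {z w : ℂ} (h : z ≠ w) :
    (-logDist z w).toENNReal = ENNReal.ofReal (-F z w) := by
  rw [logDist_of_ne h, ← EReal.coe_neg, EReal.real_coe_toENNReal]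

lemma energy_eq {μ : Measure ℂ} [SFinite μ] (hd : (μ.prod μ) {p | p.1 = p.2} = 0)
    (hF : Integrable (fun p : ℂ × ℂ => F p.1 p.2) (μ.prod μ)) :
    energy μ = ((∫ p, F p.1 p.2 ∂(μ.prod μ) : ℝ) : EReal) := by
  unfold energy
  have hne : ∀ᵐ p ∂(μ.prod μ), p.1 ≠ p.2 := by
    rw [ae_iff]
    simpa using hd
  have e1 : ∫⁻ z, ∫⁻ w, (logDist z w).toENNReal ∂μ ∂μ =
      ∫⁻ p, ENNReal.ofReal (F p.1 p.2) ∂(μ.prod μ) := by
    rw [lintegral_prod _ (F_measurable.ennreal_ofReal).aemeasurable]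
    simp only [pos_part]
  have e2 : ∫⁻ z, ∫⁻ w, (-logDist z w).toENNReal ∂μ ∂μ =
      ∫⁻ p, ENNReal.ofReal (-F p.1 p.2) ∂(μ.prod μ) := by
    rw [← lintegral_prod (fun p : ℂ × ℂ => (-logDist p.1 p.2).toENNReal)
      ((logDist_measurable.neg).ereal_toENNReal).aemeasurable]
    refine lintegral_congr_ae ?_
    filter_upwards [hne] with p hp
    exact neg_part hp
  rw [e1, e2, integral_eq_lintegral_pos_part_sub_lintegral_neg_part hF, EReal.coe_sub]
  have h1 : ∫⁻ p, ENNReal.ofReal (F p.1 p.2) ∂(μ.prod μ) ≠ ⊤ := by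
    refine ne_top_of_le_ne_top hF.2.ne (lintegral_mono fun p => ?_)
    rw [Real.enorm_eq_ofReal_abs]
    exact ENNReal.ofReal_le_ofReal (le_abs_self _)
  have h2 : ∫⁻ p, ENNReal.ofReal (-F p.1 p.2) ∂(μ.prod μ) ≠ ⊤ := by
    refine ne_top_of_le_ne_top hF.2.ne (lintegral_mono fun p => ?_)
    rw [Real.enorm_eq_ofReal_abs]
    exact ENNReal.ofReal_le_ofReal (neg_le_abs _)
  rw [EReal.coe_ennreal_toReal h1, EReal.coe_ennreal_toReal h2]

/-! ### Capacity is at most the `n`-th diameter -/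

lemma card_pairs (n : ℕ) : ∑ i : Fin n, ((Finset.Ioi i).card : ℝ) = (n : ℝ) * (n - 1) / 2 := by
  have h1 : ∑ i : Fin n, (Finset.Ioi i).card = ∑ k ∈ Finset.range n, k := by
    simp only [Fin.card_Ioi]
    rw [Fin.sum_univ_eq_sum_range (fun i => n - 1 - i) n, Finset.sum_range_reflect (fun i => i) n]
  have h2 := Finset.sum_range_id_mul_two n
  rw [← h1] at h2
  have h3 : (∑ i : Fin n, ((Finset.Ioi i).card : ℝ)) * 2 = (n : ℝ) * (n - 1) := by
    rcases Nat.eq_zero_or_pos n with h | h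
    · subst h; simp
    · have h4 : (((∑ i : Fin n, (Finset.Ioi i).card) * 2 : ℕ) : ℝ) = ((n * (n - 1) : ℕ) : ℝ) := by
        rw [h2]
      push_cast [Nat.cast_sub h] at h4
      exact h4
  linarith

lemma map_pair {μ : Measure ℂ} [IsProbabilityMeasure μ] {n : ℕ} {i j : Fin n} (hij : i ≠ j) :
    (Measure.pi fun _ : Fin n => μ).map (fun w => (w i, w j)) = μ.prod μ := by
  have h1 := ProbabilityTheory.iIndepFun_pi (μ := fun _ : Fin n => μ) (X := fun _ => (id : ℂ → ℂ))
    (fun _ => aemeasurable_id)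
  have h2 := h1.indepFun hij
  have h3 := (ProbabilityTheory.indepFun_iff_map_prod_eq_prod_map_map
    (measurable_pi_apply i).aemeasurable (measurable_pi_apply j).aemeasurable).1 h2
  have h4 : ∀ k : Fin n, (Measure.pi fun _ : Fin n => μ).map (fun w => w k) = μ := fun k =>
    (measurePreserving_eval (fun _ : Fin n => μ) k).map_eq
  have h5 : (Measure.pi fun _ : Fin n => μ).map (fun w => (w i, w j)) =
      ((Measure.pi fun _ : Fin n => μ).map fun w => w i).prod
        ((Measure.pi fun _ : Fin n => μ).map fun w => w j) := h3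
  rw [h5, h4, h4]

lemma diameter_bddAbove {n : ℕ} (hn : 2 ≤ n) {E : Set ℂ} (hE : IsCompact E) :
    BddAbove {x | ∃ w : Fin n → ℂ, (∀ i, w i ∈ E) ∧
      x = ∏ i, ∏ j ∈ Finset.Ioi i, ‖w i - w j‖ ^ (2 / ((n : ℝ) * (n - 1)))} := by
  obtain ⟨R, hR⟩ := hE.isBounded.exists_norm_le
  have hn1 : (0 : ℝ) ≤ 2 / ((n : ℝ) * (n - 1)) := by
    have : (2 : ℝ) ≤ n := by exact_mod_cast hn
    have : 0 ≤ (n : ℝ) * (n - 1) := mul_nonneg (by linarith) (by linarith)
    positivity
  refine ⟨∏ i : Fin n, ∏ _j ∈ Finset.Ioi i, (2 * R) ^ (2 / ((n : ℝ) * (n - 1))), ?_⟩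
  rintro x ⟨w, hw, rfl⟩
  refine Finset.prod_le_prod (fun i _ => Finset.prod_nonneg fun j _ => by positivity)
    fun i _ => Finset.prod_le_prod (fun j _ => by positivity) fun j _ => ?_
  refine Real.rpow_le_rpow (norm_nonneg _) ?_ hn1
  have h1 := norm_sub_le (w i) (w j)
  have h2 := hR _ (hw i)
  have h3 := hR _ (hw j)
  linarith

lemma energy_le_diameter {n : ℕ} (hn : 2 ≤ n) {E : Set ℂ} (hE : IsCompact E) {μ : Measure ℂ}
    (hμ : IsProbabilityMeasure μ) (hμE : μ Eᶜ = 0) :
    EReal.exp (energy μ) ≤ ENNReal.ofReal (nthDiameter n E) := by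
  obtain ⟨R, hR⟩ := hE.isBounded.exists_norm_le
  have hae : ∀ᵐ z ∂μ, z ∈ E := by rw [ae_iff]; exact hμE
  -- the positive part has finite integral
  have hpos : ∫⁻ z, ∫⁻ w, (logDist z w).toENNReal ∂μ ∂μ ≤ ENNReal.ofReal (2 * R) := by
    calc ∫⁻ z, ∫⁻ w, (logDist z w).toENNReal ∂μ ∂μ ≤
        ∫⁻ _z, ∫⁻ _w, ENNReal.ofReal (2 * R) ∂μ ∂μ := by
          refine lintegral_mono_ae ?_
          filter_upwards [hae] with z hz
          refine lintegral_mono_ae ?_
          filter_upwards [hae] with w hw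
          rw [pos_part]
          refine ENNReal.ofReal_le_ofReal ?_
          have h1 := norm_sub_le z w
          have h2 := hR _ hz
          have h3 := hR _ hw
          exact (Real.log_le_self (norm_nonneg _)).trans (by linarith)
      _ = ENNReal.ofReal (2 * R) := by simp
  have hposT : ∫⁻ z, ∫⁻ w, (logDist z w).toENNReal ∂μ ∂μ ≠ ⊤ :=
    ne_top_of_le_ne_top ENNReal.ofReal_ne_top hpos
  by_cases hneg : ∫⁻ z, ∫⁻ w, (-logDist z w).toENNReal ∂μ ∂μ = ⊤
  · have h1 : energy μ = ⊥ := by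
      unfold energy
      rw [hneg, EReal.coe_ennreal_top]
      exact EReal.sub_top _
    rw [h1, EReal.exp_bot]
    exact zero_le
  -- the diagonal is null
  have hm : Measurable fun p : ℂ × ℂ => (-logDist p.1 p.2).toENNReal :=
    (logDist_measurable.neg).ereal_toENNReal
  have hneg2 : ∫⁻ p, (-logDist p.1 p.2).toENNReal ∂(μ.prod μ) ≠ ⊤ := by
    rw [lintegral_prod _ hm.aemeasurable]
    exact hneg
  have hdiag : (μ.prod μ) {p | p.1 = p.2} = 0 := by
    have h1 := ae_lt_top hm hneg2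
    rw [ae_iff] at h1
    refine measure_mono_null ?_ h1
    rintro ⟨z, w⟩ h2
    have h3 : z = w := h2
    subst h3
    rw [Set.mem_ofPred_eq, logDist_self]
    simp
  have hne : ∀ᵐ p ∂(μ.prod μ), p.1 ≠ p.2 := by
    rw [ae_iff]
    simpa using hdiag
  have hF : Integrable (fun p : ℂ × ℂ => F p.1 p.2) (μ.prod μ) := by
    refine ⟨F_measurable.aestronglyMeasurable, ?_⟩
    rw [hasFiniteIntegral_iff_enorm]
    calc ∫⁻ p, ‖F p.1 p.2‖ₑ ∂(μ.prod μ) ≤
        ∫⁻ p, ((logDist p.1 p.2).toENNReal + (-logDist p.1 p.2).toENNReal) ∂(μ.prod μ) := by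
          refine lintegral_mono_ae ?_
          filter_upwards [hne] with p hp
          rw [pos_part, neg_part hp, Real.enorm_eq_ofReal_abs]
          rcases le_total 0 (F p.1 p.2) with h | h
          · rw [abs_of_nonneg h]; exact le_self_add
          · rw [abs_of_nonpos h]; exact le_add_self
      _ = ∫⁻ p, (logDist p.1 p.2).toENNReal ∂(μ.prod μ) +
          ∫⁻ p, (-logDist p.1 p.2).toENNReal ∂(μ.prod μ) :=
          lintegral_add_left logDist_measurable.ereal_toENNReal _
      _ < ⊤ := by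
          rw [ENNReal.add_lt_top]
          refine ⟨?_, lt_top_iff_ne_top.2 hneg2⟩
          rw [lintegral_prod _ logDist_measurable.ereal_toENNReal.aemeasurable]
          exact lt_top_iff_ne_top.2 hposT
  rw [energy_eq hdiag hF, EReal.exp_coe]
  refine ENNReal.ofReal_le_ofReal ?_
  set I : ℝ := ∫ p, F p.1 p.2 ∂(μ.prod μ) with hI
  -- average over `n` independent points
  set P : Measure (Fin n → ℂ) := Measure.pi fun _ : Fin n => μ with hP
  have hint : ∀ i j : Fin n, i ≠ j → Integrable (fun w : Fin n → ℂ => F (w i) (w j)) P := by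
    intro i j hij
    have h1 : Integrable (fun p : ℂ × ℂ => F p.1 p.2) (P.map fun w => (w i, w j)) := by
      rw [map_pair hij]; exact hF
    exact h1.comp_measurable (by fun_prop)
  have hval : ∀ i j : Fin n, i ≠ j → ∫ w, F (w i) (w j) ∂P = I := by
    intro i j hij
    rw [hI, ← map_pair (μ := μ) hij, integral_map (by fun_prop)]
    exact F_measurable.aestronglyMeasurable
  set G : (Fin n → ℂ) → ℝ := fun w => ∑ i, ∑ j ∈ Finset.Ioi i, F (w i) (w j) with hG
  have hGint : Integrable G P := by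
    refine integrable_finsetSum _ fun i _ => integrable_finsetSum _ fun j hj => ?_
    exact hint i j (Finset.mem_Ioi.1 hj).ne
  have hGval : ∫ w, G w ∂P = (n : ℝ) * (n - 1) / 2 * I := by
    rw [hG]
    rw [integral_finsetSum _ fun i _ => integrable_finsetSum _ fun j hj =>
      hint i j (Finset.mem_Ioi.1 hj).ne]
    have h1 : ∀ i : Fin n, ∫ w, ∑ j ∈ Finset.Ioi i, F (w i) (w j) ∂P =
        ((Finset.Ioi i).card : ℝ) * I := by
      intro i
      rw [integral_finsetSum _ fun j hj => hint i j (Finset.mem_Ioi.1 hj).ne,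
        Finset.sum_congr rfl fun j hj => hval i j (Finset.mem_Ioi.1 hj).ne, Finset.sum_const,
        nsmul_eq_mul]
    rw [Finset.sum_congr rfl fun i _ => h1 i, ← Finset.sum_mul, card_pairs]
  -- the bad set
  have hbad1 : ∀ᵐ w ∂P, ∀ i, w i ∈ E := by
    rw [ae_all_iff]
    intro i
    exact (measurePreserving_eval (fun _ : Fin n => μ) i).quasiMeasurePreserving.ae hae
  have hbad2 : ∀ᵐ w ∂P, ∀ i j : Fin n, i ≠ j → w i ≠ w j := by
    rw [ae_all_iff]
    intro i
    rw [ae_all_iff]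
    intro j
    by_cases hij : i = j
    · exact Eventually.of_forall fun w h => absurd hij h
    · have h1 : ∀ᵐ p ∂(P.map fun w => (w i, w j)), p.1 ≠ p.2 := by
        rw [map_pair hij]; exact hne
      have h2 := ae_of_ae_map (by fun_prop) h1
      filter_upwards [h2] with w hw _ using hw
  have hbad : P {w | ¬ ((∀ i, w i ∈ E) ∧ ∀ i j : Fin n, i ≠ j → w i ≠ w j)} = 0 :=
    ae_iff.1 (hbad1.and hbad2)
  obtain ⟨w, hw1, hw2⟩ := exists_notMem_null_integral_le hGint hbad
  rw [Set.mem_ofPred_eq, not_not] at hw1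
  rw [hGval] at hw2
  have hn2 : (2 : ℝ) ≤ n := by exact_mod_cast hn
  have hnn : 0 < (n : ℝ) * (n - 1) := mul_pos (by linarith) (by linarith)
  have hprod : ∏ i, ∏ j ∈ Finset.Ioi i, ‖w i - w j‖ ^ (2 / ((n : ℝ) * (n - 1))) =
      Real.exp (2 / ((n : ℝ) * (n - 1)) * G w) := by
    rw [hG]
    simp only [Finset.mul_sum, Real.exp_sum]
    refine Finset.prod_congr rfl fun i _ => Finset.prod_congr rfl fun j hj => ?_
    have h1 : 0 < ‖w i - w j‖ := norm_pos_iff.2 (sub_ne_zero.2
      (hw1.2 i j (Finset.mem_Ioi.1 hj).ne))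
    rw [Real.rpow_def_of_pos h1]
    unfold F
    ring_nf
  have hle : Real.exp I ≤ ∏ i, ∏ j ∈ Finset.Ioi i, ‖w i - w j‖ ^ (2 / ((n : ℝ) * (n - 1))) := by
    rw [hprod, Real.exp_le_exp]
    have h1 : 2 / ((n : ℝ) * (n - 1)) * ((n : ℝ) * (n - 1) / 2 * I) = I := by
      have h2 := hnn.ne'
      generalize (n : ℝ) * (n - 1) = t at h2
      field_simp
    rw [← h1]
    exact mul_le_mul_of_nonneg_left hw2 (by positivity)
  refine hle.trans ?_
  exact le_csSup (diameter_bddAbove hn hE) ⟨w, hw1.1, rfl⟩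

lemma capacity_le_diameter {n : ℕ} (hn : 2 ≤ n) {E : Set ℂ} (hE : IsCompact E) :
    capacity E ≤ ENNReal.ofReal (nthDiameter n E) := by
  unfold capacity
  have hlog : ∀ x : EReal, EReal.exp x ≤ ENNReal.ofReal (nthDiameter n E) ↔
      x ≤ ENNReal.log (ENNReal.ofReal (nthDiameter n E)) := by
    intro x
    rw [← ENNReal.log_le_log_iff, EReal.log_exp]
  rw [hlog]
  refine iSup_le fun μ => iSup_le fun hμ => iSup_le fun hμE => ?_
  rw [← hlog]
  exact energy_le_diameter hn hE hμ hμE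

/-! ### Uniform measures on circles -/

/-- Normalised Lebesgue measure on `(0, 2π]`. -/
noncomputable def tau : Measure ℝ :=
  ENNReal.ofReal ((2 * Real.pi)⁻¹) • volume.restrict (Ioc 0 (2 * Real.pi))

/-- The uniform measure on the circle of centre `c` and radius `ρ`. -/
noncomputable def sig (c : ℂ) (ρ : ℝ) : Measure ℂ := tau.map (circleMap c ρ)

instance tau_prob : IsProbabilityMeasure tau := by
  refine ⟨?_⟩
  unfold tau
  have hpi := Real.pi_pos
  rw [Measure.smul_apply, Measure.restrict_apply_univ, Real.volume_Ioc, smul_eq_mul,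
    ← ENNReal.ofReal_mul (by positivity), sub_zero, inv_mul_cancel₀ (by positivity),
    ENNReal.ofReal_one]

lemma circleMap_meas (c : ℂ) (ρ : ℝ) : Measurable (circleMap c ρ) :=
  (continuous_circleMap c ρ).measurable

instance sig_prob (c : ℂ) (ρ : ℝ) : IsProbabilityMeasure (sig c ρ) :=
  Measure.isProbabilityMeasure_map (circleMap_meas c ρ).aemeasurable

lemma sig_integral (c : ℂ) (ρ : ℝ) (f : ℂ → ℝ) (hf : Measurable f) :
    ∫ z, f z ∂(sig c ρ) = Real.circleAverage f c ρ := by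
  unfold sig
  rw [integral_map (circleMap_meas c ρ).aemeasurable hf.aestronglyMeasurable]
  unfold tau
  have hpi := Real.pi_pos
  rw [integral_smul_measure, Real.circleAverage_def,
    intervalIntegral.integral_of_le (by positivity), ENNReal.toReal_ofReal (by positivity)]

lemma sig_integrable (c : ℂ) (ρ : ℝ) (f : ℂ → ℝ) (hf : Measurable f)
    (hc : CircleIntegrable f c ρ) : Integrable f (sig c ρ) := by
  unfold sig
  rw [integrable_map_measure hf.aestronglyMeasurable (circleMap_meas c ρ).aemeasurable]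
  unfold tau
  have hpi := Real.pi_pos
  refine Integrable.smul_measure ?_ ENNReal.ofReal_ne_top
  have h1 : IntervalIntegrable (fun θ => f (circleMap c ρ θ)) volume 0 (2 * Real.pi) := hc
  rw [intervalIntegrable_iff_integrableOn_Ioc_of_le (by positivity)] at h1
  exact h1

lemma sig_singleton (c : ℂ) {ρ : ℝ} (hρ : ρ ≠ 0) (z : ℂ) : sig c ρ {z} = 0 := by
  unfold sig
  rw [Measure.map_apply (circleMap_meas c ρ) (measurableSet_singleton z)]
  have h1 : (circleMap c ρ ⁻¹' {z}).Countable := (countable_singleton z).preimage_circleMap c hρ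
  unfold tau
  rw [Measure.smul_apply, smul_eq_mul]
  have h2 : volume.restrict (Ioc 0 (2 * Real.pi)) (circleMap c ρ ⁻¹' {z}) = 0 :=
    h1.measure_zero _
  rw [h2, mul_zero]

lemma sig_support (c : ℂ) {ρ : ℝ} (hρ : 0 ≤ ρ) : ∀ᵐ z ∂(sig c ρ), ‖z - c‖ = ρ := by
  unfold sig
  rw [ae_map_iff (circleMap_meas c ρ).aemeasurable
    (measurableSet_eq_fun (by fun_prop) measurable_const)]
  refine Eventually.of_forall fun θ => ?_
  rw [← dist_eq_norm]
  exact (circleMap_mem_sphere c hρ θ)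

lemma F_meas_right (z : ℂ) : Measurable fun w => F z w := by
  unfold F; fun_prop

lemma F_integrable (z c : ℂ) (ρ : ℝ) : Integrable (fun w => F z w) (sig c ρ) := by
  refine sig_integrable c ρ _ (F_meas_right z) ?_
  have h1 := circleIntegrable_log_norm_sub_const (a := z) (c := c) ρ
  have h2 : (fun w => F z w) = fun w => Real.log ‖w - z‖ := by
    funext w
    unfold F
    rw [norm_sub_rev]
  rw [h2]
  exact h1

lemma F_average (z c : ℂ) {ρ : ℝ} (hρ : 0 < ρ) :
    ∫ w, F z w ∂(sig c ρ) = Real.log ρ + Real.posLog (ρ⁻¹ * ‖c - z‖) := by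
  rw [sig_integral c ρ _ (F_meas_right z)]
  have h2 : (fun w => F z w) = fun w => Real.log ‖w - z‖ := by
    funext w
    unfold F
    rw [norm_sub_rev]
  rw [h2]
  exact circleAverage_log_norm_sub_const_eq_log_radius_add_posLog hρ.ne'

lemma F_average_ge (z c : ℂ) {ρ : ℝ} (hρ : 0 < ρ) : Real.log ρ ≤ ∫ w, F z w ∂(sig c ρ) := by
  rw [F_average z c hρ]
  have := Real.posLog_nonneg (x := ρ⁻¹ * ‖c - z‖)
  linarith

lemma F_average_ge' (z c : ℂ) {ρ : ℝ} (hρ : 0 < ρ) (h : z ≠ c) :
    F z c ≤ ∫ w, F z w ∂(sig c ρ) := by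
  rw [F_average z c hρ]
  have h1 : 0 < ‖c - z‖ := norm_pos_iff.2 (sub_ne_zero.2 h.symm)
  have h2 : Real.log (ρ⁻¹ * ‖c - z‖) ≤ Real.posLog (ρ⁻¹ * ‖c - z‖) := by
    rw [Real.posLog_def]
    exact le_max_right _ _
  rw [Real.log_mul (by positivity) h1.ne', Real.log_inv] at h2
  unfold F
  rw [norm_sub_rev]
  linarith

/-- The smoothed measure of a configuration. -/
noncomputable def smooth {n : ℕ} (w : Fin n → ℂ) (ρ : ℝ) : Measure ℂ :=
  ((n : ℝ≥0∞)⁻¹) • ∑ j, sig (w j) ρ

lemma smooth_prob {n : ℕ} (hn : 0 < n) (w : Fin n → ℂ) (ρ : ℝ) :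
    IsProbabilityMeasure (smooth w ρ) := by
  refine ⟨?_⟩
  unfold smooth
  rw [Measure.smul_apply, Measure.finsetSum_apply]
  simp only [measure_univ, Finset.sum_const, Finset.card_univ, Fintype.card_fin, nsmul_eq_mul,
    mul_one, smul_eq_mul]
  exact ENNReal.inv_mul_cancel (by exact_mod_cast hn.ne') (ENNReal.natCast_ne_top n)

lemma smooth_null {n : ℕ} (w : Fin n → ℂ) (ρ : ℝ) (S : Set ℂ) (h : ∀ j, sig (w j) ρ S = 0) :
    smooth w ρ S = 0 := by
  unfold smooth
  rw [Measure.smul_apply, Measure.finsetSum_apply, Finset.sum_eq_zero fun j _ => h j, smul_zero]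

lemma smooth_integrable {n : ℕ} (hn : 0 < n) (w : Fin n → ℂ) (ρ : ℝ) (f : ℂ → ℝ)
    (h : ∀ j, Integrable f (sig (w j) ρ)) : Integrable f (smooth w ρ) := by
  unfold smooth
  refine Integrable.smul_measure ?_ (ENNReal.inv_ne_top.2 (by exact_mod_cast hn.ne'))
  rw [integrable_finsetSum_measure]
  exact fun j _ => h j

lemma smooth_integral {n : ℕ} (w : Fin n → ℂ) (ρ : ℝ) (f : ℂ → ℝ)
    (h : ∀ j, Integrable f (sig (w j) ρ)) :
    ∫ z, f z ∂(smooth w ρ) = (n : ℝ)⁻¹ * ∑ j, ∫ z, f z ∂(sig (w j) ρ) := by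
  unfold smooth
  rw [integral_smul_measure, integral_finsetSum_measure fun j _ => h j, ENNReal.toReal_inv,
    ENNReal.toReal_natCast, smul_eq_mul]

lemma F_symm (z w : ℂ) : F z w = F w z := by
  unfold F
  rw [norm_sub_rev]

lemma potential_integrable (c c' : ℂ) {ρ : ℝ} (hρ : 0 < ρ) :
    Integrable (fun z => ∫ w, F z w ∂(sig c ρ)) (sig c' ρ) := by
  have h1 : (fun z => ∫ w, F z w ∂(sig c ρ)) = fun z =>
      Real.log ρ + Real.posLog (ρ⁻¹ * ‖c - z‖) := funext fun z => F_average z c hρ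
  have hcont : Continuous fun z : ℂ => Real.log ρ + Real.posLog (ρ⁻¹ * ‖c - z‖) := by
    refine continuous_const.add (Real.continuous_posLog.comp ?_)
    fun_prop
  rw [h1]
  exact sig_integrable c' ρ _ hcont.measurable (hcont.continuousOn.circleIntegrable hρ.le)

/-- The double integral between two circles. -/
lemma pair_ge {c c' : ℂ} {ρ : ℝ} (hρ : 0 < ρ) (h : c' ≠ c) :
    F c' c ≤ ∫ z, ∫ w, F z w ∂(sig c ρ) ∂(sig c' ρ) := by
  have h1 : F c' c ≤ ∫ z, F z c ∂(sig c' ρ) := by
    have h2 := F_average_ge' c c' hρ h.symm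
    rw [F_symm]
    refine h2.trans (le_of_eq ?_)
    refine integral_congr_ae (Eventually.of_forall fun z => ?_)
    exact F_symm _ _
  refine h1.trans ?_
  refine integral_mono_ae ?_ (potential_integrable c c' hρ) ?_
  · have h3 : (fun z => F z c) = fun z => F c z := funext fun z => F_symm _ _
    rw [h3]
    exact F_integrable c c' ρ
  · have h4 : ∀ᵐ z ∂(sig c' ρ), z ≠ c := by
      rw [ae_iff]
      simpa using sig_singleton c' hρ.ne' c
    filter_upwards [h4] with z hz
    exact F_average_ge' z c hρ hz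

lemma self_ge (c : ℂ) {ρ : ℝ} (hρ : 0 < ρ) :
    Real.log ρ ≤ ∫ z, ∫ w, F z w ∂(sig c ρ) ∂(sig c ρ) := by
  have h1 : ∫ _z, Real.log ρ ∂(sig c ρ) = Real.log ρ := by simp
  rw [← h1]
  exact integral_mono (integrable_const _) (potential_integrable c c hρ)
    fun z => F_average_ge z c hρ

lemma smooth_energy {n : ℕ} (hn : 0 < n) (w : Fin n → ℂ) (hw : Function.Injective w) {ρ : ℝ}
    (hρ : 0 < ρ) :
    (((n : ℝ)⁻¹ * ((n : ℝ)⁻¹ * (∑ i, ∑ j ∈ Finset.univ.erase i, F (w i) (w j) +
      n * Real.log ρ)) : ℝ) : EReal) ≤ energy (smooth w ρ) := by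
  have hprob := smooth_prob hn w ρ
  have hnR : (0 : ℝ) < n := by exact_mod_cast hn
  set μ := smooth w ρ with hμ
  -- a bound on the support
  obtain ⟨R0, hR0⟩ := (Set.finite_range fun j => ‖w j‖).bddAbove
  set R : ℝ := |R0| + ρ with hR
  have hsupp : ∀ᵐ z ∂μ, ‖z‖ ≤ R := by
    rw [ae_iff]
    refine smooth_null w ρ _ fun j => ?_
    rw [← ae_iff]
    filter_upwards [sig_support (w j) hρ.le] with z hz
    have h1 : ‖w j‖ ≤ R0 := hR0 ⟨j, rfl⟩
    have h2 : ‖z‖ ≤ ‖z - w j‖ + ‖w j‖ := by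
      have := norm_add_le (z - w j) (w j)
      simpa using this
    rw [hz] at h2
    have h3 := le_abs_self R0
    linarith
  have hFi : ∀ z, Integrable (fun u => F z u) μ := fun z =>
    smooth_integrable hn w ρ _ fun j => F_integrable z (w j) ρ
  have hU : ∀ z, ∫ u, F z u ∂μ = (n : ℝ)⁻¹ * ∑ j, ∫ u, F z u ∂(sig (w j) ρ) := fun z =>
    smooth_integral w ρ _ fun j => F_integrable z (w j) ρ
  have hUge : ∀ z, Real.log ρ ≤ ∫ u, F z u ∂μ := by
    intro z
    rw [hU z]
    have h1 : ∑ _j : Fin n, Real.log ρ ≤ ∑ j, ∫ u, F z u ∂(sig (w j) ρ) :=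
      Finset.sum_le_sum fun j _ => F_average_ge z (w j) hρ
    rw [Finset.sum_const, Finset.card_univ, Fintype.card_fin, nsmul_eq_mul] at h1
    calc Real.log ρ = (n : ℝ)⁻¹ * (n * Real.log ρ) := by field_simp
      _ ≤ _ := by gcongr
  -- diagonal
  have hdiag : (μ.prod μ) {p | p.1 = p.2} = 0 := by
    rw [Measure.prod_apply (measurableSet_eq_fun measurable_fst measurable_snd)]
    have h1 : ∀ z : ℂ, μ (Prod.mk z ⁻¹' {p : ℂ × ℂ | p.1 = p.2}) = 0 := by
      intro z
      have h2 : Prod.mk z ⁻¹' {p : ℂ × ℂ | p.1 = p.2} = {z} := by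
        ext u
        simp [eq_comm]
      rw [h2]
      exact smooth_null w ρ _ fun j => sig_singleton (w j) hρ.ne' z
    simp only [h1, lintegral_zero]
  have hF : Integrable (fun p : ℂ × ℂ => F p.1 p.2) (μ.prod μ) := by
    rw [integrable_prod_iff F_measurable.aestronglyMeasurable]
    refine ⟨Eventually.of_forall hFi, ?_⟩
    refine Integrable.of_bound (C := 4 * R - Real.log ρ) ?_ ?_
    · have h1 : StronglyMeasurable (Function.uncurry fun z u : ℂ => ‖F z u‖) :=
        F_measurable.norm.stronglyMeasurable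
      exact (h1.integral_prod_right (ν := μ)).aestronglyMeasurable
    · filter_upwards [hsupp] with z hz
      rw [Real.norm_of_nonneg (integral_nonneg fun u => norm_nonneg _)]
      have h1 : ∫ u, ‖F z u‖ ∂μ ≤ ∫ u, (4 * R - F z u) ∂μ := by
        refine integral_mono_ae (hFi z).norm ((integrable_const _).sub (hFi z)) ?_
        filter_upwards [hsupp] with u hu
        have h2 : F z u ≤ 2 * R := by
          unfold F
          refine (Real.log_le_self (norm_nonneg _)).trans ?_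
          have := norm_sub_le z u
          linarith
        have hRpos : 0 ≤ R := by positivity
        rw [Real.norm_eq_abs]
        rcases le_total 0 (F z u) with h | h
        · rw [abs_of_nonneg h]; linarith
        · rw [abs_of_nonpos h]; linarith
      have h3 : ∫ u, (4 * R - F z u) ∂μ = 4 * R - ∫ u, F z u ∂μ := by
        rw [integral_sub (integrable_const _) (hFi z)]
        simp
      have h4 := hUge z
      linarith
  rw [energy_eq hdiag hF, EReal.coe_le_coe_iff, integral_prod _ hF]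
  -- compute
  have hUi : ∀ i, Integrable (fun z => ∫ u, F z u ∂μ) (sig (w i) ρ) := by
    intro i
    have h1 : (fun z => ∫ u, F z u ∂μ) = fun z => (n : ℝ)⁻¹ * ∑ j, ∫ u, F z u ∂(sig (w j) ρ) :=
      funext hU
    rw [h1]
    exact (integrable_finsetSum _ fun j _ => potential_integrable (w j) (w i) hρ).const_mul _
  have h1 : ∫ z, ∫ u, F z u ∂μ ∂μ = (n : ℝ)⁻¹ * ∑ i, ((n : ℝ)⁻¹ *
      ∑ j, ∫ z, ∫ u, F z u ∂(sig (w j) ρ) ∂(sig (w i) ρ)) := by
    rw [smooth_integral w ρ (fun z => ∫ u, F z u ∂μ) hUi]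
    congr 1
    refine Finset.sum_congr rfl fun i _ => ?_
    have h2 : ∫ z, ∫ u, F z u ∂μ ∂(sig (w i) ρ) =
        ∫ z, (n : ℝ)⁻¹ * ∑ j, ∫ u, F z u ∂(sig (w j) ρ) ∂(sig (w i) ρ) :=
      integral_congr_ae (Eventually.of_forall hU)
    rw [h2, integral_const_mul, integral_finsetSum _ fun j _ =>
      potential_integrable (w j) (w i) hρ]
  rw [h1, ← Finset.mul_sum]
  refine mul_le_mul_of_nonneg_left (mul_le_mul_of_nonneg_left ?_ (by positivity)) (by positivity)
  have h3 : ∑ i, ∑ j ∈ Finset.univ.erase i, F (w i) (w j) + n * Real.log ρ =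
      ∑ i, (∑ j ∈ Finset.univ.erase i, F (w i) (w j) + Real.log ρ) := by
    rw [Finset.sum_add_distrib, Finset.sum_const, Finset.card_univ, Fintype.card_fin,
      nsmul_eq_mul]
  rw [h3]
  refine Finset.sum_le_sum fun i _ => ?_
  rw [← Finset.sum_erase_add Finset.univ _ (Finset.mem_univ i)]
  refine add_le_add (Finset.sum_le_sum fun j hj => ?_) (self_ge (w i) hρ)
  exact pair_ge hρ fun h => (Finset.ne_of_mem_erase hj) (hw h).symm

/-! ### Moving points into a smaller neighbourhood -/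

lemma walsh {ι : Type*} (s : Finset ι) (a : ι → ℂ) (p z : ℂ) {r : ℝ} (hr : 0 < r)
    (hz : r ≤ ‖z - p‖) : ∃ ζ : ℂ, ‖ζ - p‖ = r ∧
      ∏ k ∈ s, ‖z - a k‖ ≤ (‖z - p‖ / r) ^ s.card * ∏ k ∈ s, ‖ζ - a k‖ := by
  set G : ℂ → ℂ := fun t => ∏ k ∈ s, ((r : ℂ) + (p - a k) * t) with hG
  have hGd : Differentiable ℂ G := by
    rw [hG]
    fun_prop
  have hu : 0 < ‖z - p‖ := lt_of_lt_of_le hr hz
  have hu0 : z - p ≠ 0 := norm_pos_iff.1 hu
  obtain ⟨t0, ht0, hmax⟩ := Complex.exists_mem_frontier_isMaxOn_norm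
    (Metric.isBounded_ball (x := (0 : ℂ)) (r := 1)) (Metric.nonempty_ball.2 one_pos)
    hGd.diffContOnCl
  rw [frontier_ball (0 : ℂ) one_ne_zero, mem_sphere_zero_iff_norm] at ht0
  rw [closure_ball (0 : ℂ) one_ne_zero] at hmax
  have ht00 : t0 ≠ 0 := norm_pos_iff.1 (by rw [ht0]; exact one_pos)
  have hmem : (r : ℂ) / (z - p) ∈ Metric.closedBall (0 : ℂ) 1 := by
    rw [mem_closedBall_zero_iff, norm_div, Complex.norm_real, Real.norm_of_nonneg hr.le,
      div_le_one hu]
    exact hz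
  have h1 : ‖G ((r : ℂ) / (z - p))‖ ≤ ‖G t0‖ := hmax hmem
  have h2 : ‖G ((r : ℂ) / (z - p))‖ = (r / ‖z - p‖) ^ s.card * ∏ k ∈ s, ‖z - a k‖ := by
    rw [hG]
    simp only
    rw [norm_prod, ← Finset.prod_const, ← Finset.prod_mul_distrib]
    refine Finset.prod_congr rfl fun k _ => ?_
    have e : (r : ℂ) + (p - a k) * (r / (z - p)) = (r / (z - p)) * (z - a k) := by
      field_simp
      ring
    rw [e, norm_mul, norm_div, Complex.norm_real, Real.norm_of_nonneg hr.le]
  have h3 : ‖G t0‖ = ∏ k ∈ s, ‖(p + r / t0) - a k‖ := by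
    rw [hG]
    simp only
    rw [norm_prod]
    refine Finset.prod_congr rfl fun k _ => ?_
    have e : (r : ℂ) + (p - a k) * t0 = t0 * ((p + r / t0) - a k) := by
      field_simp
      ring
    rw [e, norm_mul, ht0, one_mul]
  rw [h2, h3] at h1
  refine ⟨p + r / t0, ?_, ?_⟩
  · rw [add_sub_cancel_left, norm_div, ht0, div_one, Complex.norm_real,
      Real.norm_of_nonneg hr.le]
  · have h4 : (‖z - p‖ / r) ^ s.card * (r / ‖z - p‖) ^ s.card = 1 := by
      rw [← mul_pow]
      have : ‖z - p‖ / r * (r / ‖z - p‖) = 1 := by field_simp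
      rw [this, one_pow]
    calc ∏ k ∈ s, ‖z - a k‖ = (‖z - p‖ / r) ^ s.card *
          ((r / ‖z - p‖) ^ s.card * ∏ k ∈ s, ‖z - a k‖) := by
          rw [← mul_assoc, h4, one_mul]
      _ ≤ _ := by gcongr

/-- The product over ordered pairs. -/
noncomputable def V2 {n : ℕ} (w : Fin n → ℂ) : ℝ :=
  ∏ i, ∏ j ∈ Finset.univ.erase i, ‖w i - w j‖

lemma V2_nonneg {n : ℕ} (w : Fin n → ℂ) : 0 ≤ V2 w :=
  Finset.prod_nonneg fun _ _ => Finset.prod_nonneg fun _ _ => norm_nonneg _

lemma V2_split {n : ℕ} (w : Fin n → ℂ) (i : Fin n) :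
    V2 w = (∏ k ∈ Finset.univ.erase i, ‖w i - w k‖) ^ 2 *
      ∏ j ∈ Finset.univ.erase i, ∏ k ∈ (Finset.univ.erase j).erase i, ‖w j - w k‖ := by
  unfold V2
  rw [← Finset.mul_prod_erase Finset.univ _ (Finset.mem_univ i)]
  have h1 : ∀ j ∈ Finset.univ.erase i, ∏ k ∈ Finset.univ.erase j, ‖w j - w k‖ =
      ‖w i - w j‖ * ∏ k ∈ (Finset.univ.erase j).erase i, ‖w j - w k‖ := by
    intro j hj
    rw [← Finset.mul_prod_erase (Finset.univ.erase j) _
      (Finset.mem_erase.2 ⟨(Finset.ne_of_mem_erase hj).symm, Finset.mem_univ i⟩), norm_sub_rev]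
  rw [Finset.prod_congr rfl h1, Finset.prod_mul_distrib]
  ring

lemma move_one {n : ℕ} (w : Fin n → ℂ) (i : Fin n) (p : ℂ) {r q : ℝ} (hr : 0 < r) (hq : 1 ≤ q)
    (h : ‖w i - p‖ ≤ q * r) : ∃ ζ : ℂ, ‖ζ - p‖ ≤ r ∧
      V2 w ≤ (q ^ (n - 1)) ^ 2 * V2 (Function.update w i ζ) := by
  classical
  have hcard : (Finset.univ.erase i).card = n - 1 := by
    rw [Finset.card_erase_of_mem (Finset.mem_univ i), Finset.card_univ, Fintype.card_fin]
  have hmain : ∃ ζ : ℂ, ‖ζ - p‖ ≤ r ∧ ∏ k ∈ Finset.univ.erase i, ‖w i - w k‖ ≤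
      q ^ (n - 1) * ∏ k ∈ Finset.univ.erase i, ‖ζ - w k‖ := by
    rcases le_total ‖w i - p‖ r with h1 | h1
    · refine ⟨w i, h1, ?_⟩
      have h2 : (1 : ℝ) ≤ q ^ (n - 1) := one_le_pow₀ hq
      exact le_mul_of_one_le_left (Finset.prod_nonneg fun k _ => norm_nonneg _) h2
    · obtain ⟨ζ, hζ, hle⟩ := walsh (Finset.univ.erase i) w p (w i) hr h1
      refine ⟨ζ, hζ.le, hle.trans ?_⟩
      rw [hcard]
      have h3 : 0 ≤ ∏ k ∈ Finset.univ.erase i, ‖ζ - w k‖ :=
        Finset.prod_nonneg fun k _ => norm_nonneg _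
      have h4 : ‖w i - p‖ / r ≤ q := by rw [div_le_iff₀ hr]; exact h
      gcongr
  obtain ⟨ζ, hζ, hle⟩ := hmain
  refine ⟨ζ, hζ, ?_⟩
  rw [V2_split w i, V2_split (Function.update w i ζ) i]
  have e1 : ∏ k ∈ Finset.univ.erase i, ‖Function.update w i ζ i - Function.update w i ζ k‖ =
      ∏ k ∈ Finset.univ.erase i, ‖ζ - w k‖ := by
    refine Finset.prod_congr rfl fun k hk => ?_
    rw [Function.update_self, Function.update_of_ne (Finset.ne_of_mem_erase hk)]
  have e2 : ∏ j ∈ Finset.univ.erase i, ∏ k ∈ (Finset.univ.erase j).erase i,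
      ‖Function.update w i ζ j - Function.update w i ζ k‖ =
      ∏ j ∈ Finset.univ.erase i, ∏ k ∈ (Finset.univ.erase j).erase i, ‖w j - w k‖ := by
    refine Finset.prod_congr rfl fun j hj => Finset.prod_congr rfl fun k hk => ?_
    rw [Function.update_of_ne (Finset.ne_of_mem_erase hj),
      Function.update_of_ne (Finset.ne_of_mem_erase hk)]
  rw [e1, e2, ← mul_assoc, ← mul_pow]
  have h0 : 0 ≤ ∏ k ∈ Finset.univ.erase i, ‖w i - w k‖ :=
    Finset.prod_nonneg fun k _ => norm_nonneg _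
  have h5 : 0 ≤ ∏ j ∈ Finset.univ.erase i, ∏ k ∈ (Finset.univ.erase j).erase i, ‖w j - w k‖ :=
    Finset.prod_nonneg fun j _ => Finset.prod_nonneg fun k _ => norm_nonneg _
  gcongr

lemma move_all {n : ℕ} {K : Set ℂ} (hK : IsCompact K) {ε ε' q : ℝ} (hε' : 0 < ε') (hq : 1 ≤ q)
    (hεq : ε = q * ε') (w : Fin n → ℂ) (hw : ∀ i, w i ∈ Metric.cthickening ε K) :
    ∃ w' : Fin n → ℂ, (∀ i, w' i ∈ Metric.cthickening ε' K) ∧
      V2 w ≤ ((q ^ (n - 1)) ^ 2) ^ n * V2 w' := by
  classical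
  have hstep : ∀ s : Finset (Fin n), ∃ w' : Fin n → ℂ, (∀ i ∈ s, w' i ∈ Metric.cthickening ε' K) ∧
      (∀ i, i ∉ s → w' i = w i) ∧ V2 w ≤ ((q ^ (n - 1)) ^ 2) ^ s.card * V2 w' := by
    intro s
    induction s using Finset.induction_on with
    | empty => exact ⟨w, by simp, by simp, by simp⟩
    | insert i s hi ih =>
      obtain ⟨w', h1, h2, h3⟩ := ih
      have h4 : w i ∈ Metric.cthickening ε K := hw i
      have hεpos : 0 ≤ ε := by rw [hεq]; positivity
      rw [hK.cthickening_eq_biUnion_closedBall hεpos, mem_iUnion₂] at h4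
      obtain ⟨p, hp, hwp⟩ := h4
      rw [Metric.mem_closedBall, dist_eq_norm, hεq, ← h2 i hi] at hwp
      obtain ⟨ζ, hζ, h5⟩ := move_one w' i p hε' hq hwp
      refine ⟨Function.update w' i ζ, ?_, ?_, ?_⟩
      · intro j hj
        by_cases hji : j = i
        · subst hji
          rw [Function.update_self, hK.cthickening_eq_biUnion_closedBall hε'.le, mem_iUnion₂]
          exact ⟨p, hp, by rw [Metric.mem_closedBall, dist_eq_norm]; exact hζ⟩
        · rw [Function.update_of_ne hji]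
          exact h1 j (Finset.mem_of_mem_insert_of_ne hj hji)
      · intro j hj
        rw [Finset.mem_insert, not_or] at hj
        rw [Function.update_of_ne hj.1]
        exact h2 j hj.2
      · rw [Finset.card_insert_of_notMem hi, pow_succ, mul_assoc]
        refine h3.trans ?_
        gcongr
  obtain ⟨w', h1, -, h3⟩ := hstep Finset.univ
  refine ⟨w', fun i => h1 i (Finset.mem_univ i), ?_⟩
  rwa [Finset.card_univ, Fintype.card_fin] at h3

/-! ### Assembly -/

lemma V2_eq {n : ℕ} (w : Fin n → ℂ) :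
    V2 w = (∏ i, ∏ j ∈ Finset.Ioi i, ‖w i - w j‖) ^ 2 := by
  classical
  unfold V2
  have h1 : ∀ i : Fin n, Finset.univ.erase i = Finset.Iio i ∪ Finset.Ioi i := by
    intro i
    ext j
    simp only [Finset.mem_erase, Finset.mem_univ, and_true, Finset.mem_union, Finset.mem_Iio,
      Finset.mem_Ioi]
    constructor
    · exact fun h => lt_or_gt_of_ne h
    · rintro (h | h)
      · exact h.ne
      · exact h.ne'
  have h2 : ∀ i : Fin n, Disjoint (Finset.Iio i) (Finset.Ioi i) := by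
    intro i
    rw [Finset.disjoint_left]
    intro j hj hj'
    rw [Finset.mem_Iio] at hj
    rw [Finset.mem_Ioi] at hj'
    exact lt_asymm hj hj'
  have h3 : ∏ i, ∏ j ∈ Finset.Iio i, ‖w i - w j‖ = ∏ i, ∏ j ∈ Finset.Ioi i, ‖w i - w j‖ := by
    rw [Finset.prod_comm' (s := Finset.univ) (t := fun i => Finset.Iio i)
      (t' := Finset.univ) (s' := fun j => Finset.Ioi j) (by simp)]
    refine Finset.prod_congr rfl fun i _ => Finset.prod_congr rfl fun j _ => ?_
    rw [norm_sub_rev]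
  calc ∏ i, ∏ j ∈ Finset.univ.erase i, ‖w i - w j‖ =
      ∏ i, ((∏ j ∈ Finset.Iio i, ‖w i - w j‖) * ∏ j ∈ Finset.Ioi i, ‖w i - w j‖) := by
        refine Finset.prod_congr rfl fun i _ => ?_
        rw [h1 i, Finset.prod_union (h2 i)]
    _ = _ := by rw [Finset.prod_mul_distrib, h3]; ring

lemma diameter_term {n : ℕ} (w : Fin n → ℂ) :
    ∏ i, ∏ j ∈ Finset.Ioi i, ‖w i - w j‖ ^ (2 / ((n : ℝ) * (n - 1))) =
      V2 w ^ (1 / ((n : ℝ) * (n - 1))) := by
  have h1 : ∀ i : Fin n, ∏ j ∈ Finset.Ioi i, ‖w i - w j‖ ^ (2 / ((n : ℝ) * (n - 1))) =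
      (∏ j ∈ Finset.Ioi i, ‖w i - w j‖) ^ (2 / ((n : ℝ) * (n - 1))) := fun i =>
    Real.finsetProd_rpow _ _ (fun j _ => norm_nonneg _) _
  rw [Finset.prod_congr rfl fun i _ => h1 i, Real.finsetProd_rpow _ _
    (fun i _ => Finset.prod_nonneg fun j _ => norm_nonneg _), V2_eq, ← Real.rpow_natCast,
    ← Real.rpow_mul (Finset.prod_nonneg fun i _ => Finset.prod_nonneg fun j _ => norm_nonneg _)]
  congr 1
  push_cast
  ring

lemma capacity_lower {n : ℕ} (hn : 0 < n) (w : Fin n → ℂ) (hV : 0 < V2 w) {ρ : ℝ} (hρ : 0 < ρ)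
    {E : Set ℂ} (hE : ∀ i, Metric.closedBall (w i) ρ ⊆ E) :
    ENNReal.ofReal (Real.exp ((n : ℝ)⁻¹ * ((n : ℝ)⁻¹ * (Real.log (V2 w) + n * Real.log ρ)))) ≤
      capacity E := by
  have hne : ∀ i, ∀ j ∈ Finset.univ.erase i, ‖w i - w j‖ ≠ 0 := by
    intro i j hj h0
    have h1 : ∏ j ∈ Finset.univ.erase i, ‖w i - w j‖ = 0 := Finset.prod_eq_zero hj h0
    have h2 : V2 w = 0 := by
      unfold V2
      exact Finset.prod_eq_zero (Finset.mem_univ i) h1
    linarith
  have hinj : Function.Injective w := by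
    intro i j hij
    by_contra h
    exact hne i j (Finset.mem_erase.2 ⟨fun h' => h h'.symm, Finset.mem_univ j⟩)
      (by rw [hij, sub_self, norm_zero])
  have hlog : Real.log (V2 w) = ∑ i, ∑ j ∈ Finset.univ.erase i, F (w i) (w j) := by
    unfold V2
    rw [Real.log_prod fun i _ => Finset.prod_ne_zero_iff.2 (hne i)]
    refine Finset.sum_congr rfl fun i _ => ?_
    rw [Real.log_prod (hne i)]
    rfl
  have h1 := smooth_energy hn w hinj hρ
  rw [← hlog] at h1
  have hprob := smooth_prob hn w ρ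
  have hnull : smooth w ρ Eᶜ = 0 := by
    refine smooth_null w ρ _ fun j => ?_
    have h2 : ∀ᵐ z ∂(sig (w j) ρ), z ∈ E := by
      filter_upwards [sig_support (w j) hρ.le] with z hz
      refine hE j ?_
      rw [Metric.mem_closedBall, dist_eq_norm]
      exact hz.le
    rw [ae_iff] at h2
    exact h2
  unfold capacity
  rw [← EReal.exp_coe]
  refine EReal.exp_monotone (h1.trans ?_)
  exact le_iSup_of_le (smooth w ρ) (le_iSup_of_le hprob (le_iSup_of_le hnull le_rfl))

lemma main_bound {K : Set ℂ} (hK : IsCompact K) (hKne : K.Nonempty) {R : ℝ} (hR0 : 0 ≤ R)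
    (hR : ∀ z ∈ K, ‖z‖ ≤ R) {n : ℕ} (hn : 2 ≤ n) :
    capacity (Metric.cthickening (1 / n) K) ≠ 0 ∧ capacity (Metric.cthickening (1 / n) K) ≠ ⊤ ∧
    ENNReal.ofReal (nthDiameter n (Metric.cthickening (1 / n) K)) ≤
      ENNReal.ofReal (Real.exp (2 * Real.log (1 + 1 / n) +
        (Real.log (2 * (R + 1)) + Real.log (n * (n + 1))) / (n - 1))) *
        capacity (Metric.cthickening (1 / n) K) := by
  have hn2 : (2 : ℝ) ≤ n := by exact_mod_cast hn
  have hnR : (0 : ℝ) < n := by linarith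
  have hn0 : 0 < n := by omega
  set E := Metric.cthickening (1 / (n : ℝ)) K with hE
  have hEc : IsCompact E := hK.cthickening
  have hεpos : (0 : ℝ) < 1 / n := by positivity
  have hER : ∀ z ∈ E, ‖z‖ ≤ R + 1 := by
    intro z hz
    rw [hE, hK.cthickening_eq_biUnion_closedBall hεpos.le, mem_iUnion₂] at hz
    obtain ⟨p, hp, hzp⟩ := hz
    rw [Metric.mem_closedBall, dist_eq_norm] at hzp
    have h1 : ‖z‖ ≤ ‖z - p‖ + ‖p‖ := by
      have := norm_add_le (z - p) p
      simpa using this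
    have h2 : (1 : ℝ) / n ≤ 1 := by
      rw [div_le_one hnR]; linarith
    have h3 := hR p hp
    linarith
  -- finiteness
  have hdiam2 : nthDiameter 2 E ≤ 2 * (R + 1) := by
    unfold nthDiameter
    refine csSup_le ?_ ?_
    · obtain ⟨z, hz⟩ := hKne
      exact ⟨_, fun _ => z, fun _ => Metric.self_subset_cthickening K hz, rfl⟩
    · rintro x ⟨w, hw, rfl⟩
      have h1 : ∀ i j : Fin 2, ‖w i - w j‖ ≤ 2 * (R + 1) := fun i j => by
        have h1 := norm_sub_le (w i) (w j)
        have h2 := hER _ (hw i)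
        have h3 := hER _ (hw j)
        linarith
      have h2 : Finset.Ioi (0 : Fin 2) = {1} := by decide
      have h3 : Finset.Ioi (1 : Fin 2) = ∅ := by decide
      rw [Fin.prod_univ_two, h2, h3, Finset.prod_singleton, Finset.prod_empty, mul_one]
      norm_num
      exact h1 0 1
  have hcap2 : capacity E ≤ ENNReal.ofReal (2 * (R + 1)) :=
    (capacity_le_diameter le_rfl hEc).trans (ENNReal.ofReal_le_ofReal hdiam2)
  have hcapT : capacity E ≠ ⊤ := ne_top_of_le_ne_top ENNReal.ofReal_ne_top hcap2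
  -- positivity
  have hcap0 : capacity E ≠ 0 := by
    obtain ⟨z, hz⟩ := hKne
    have h1 := capacity_lower (n := 1) one_pos (fun _ => z) (by simp [V2]) hεpos (E := E)
      (fun i => by
        rw [hE]
        exact Metric.closedBall_subset_cthickening hz _)
    intro h0
    rw [h0, nonpos_iff_eq_zero, ENNReal.ofReal_eq_zero] at h1
    exact absurd h1 (not_le.2 (Real.exp_pos _))
  refine ⟨hcap0, hcapT, ?_⟩
  set c : ℝ := Real.log (capacity E).toReal with hc
  have hcpos : 0 < (capacity E).toReal := ENNReal.toReal_pos hcap0 hcapT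
  have hcE : capacity E = ENNReal.ofReal (Real.exp c) := by
    rw [hc, Real.exp_log hcpos, ENNReal.ofReal_toReal hcapT]
  have hcle : c ≤ Real.log (2 * (R + 1)) := by
    rw [hc]
    refine Real.log_le_log hcpos ?_
    have := ENNReal.toReal_mono ENNReal.ofReal_ne_top hcap2
    rwa [ENNReal.toReal_ofReal (by positivity)] at this
  have hn1 : (0 : ℝ) < n - 1 := by linarith
  have hnn : (0 : ℝ) < n * (n - 1) := mul_pos hnR hn1
  -- the bound for each configuration
  have hterm : ∀ w : Fin n → ℂ, (∀ i, w i ∈ E) →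
      V2 w ^ (1 / ((n : ℝ) * (n - 1))) ≤ Real.exp (2 * Real.log (1 + 1 / n) +
        (n / (n - 1)) * c + Real.log (n * (n + 1)) / (n - 1)) := by
    intro w hw
    rcases (V2_nonneg w).eq_or_lt with h0 | h0
    · rw [← h0, Real.zero_rpow (by positivity)]
      positivity
    have hε' : (0 : ℝ) < 1 / (n + 1) := by positivity
    have hq : (1 : ℝ) ≤ 1 + 1 / n := by linarith
    have hεq : (1 : ℝ) / n = (1 + 1 / n) * (1 / (n + 1)) := by field_simp
    obtain ⟨w', hw', hVle⟩ := move_all hK hε' hq hεq w hw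
    have hV' : 0 < V2 w' := by
      rcases (V2_nonneg w').eq_or_lt with h1 | h1
      · rw [← h1, mul_zero] at hVle
        linarith
      · exact h1
    set ρ : ℝ := 1 / (n * (n + 1)) with hρ
    have hρpos : 0 < ρ := by positivity
    have hball : ∀ i, Metric.closedBall (w' i) ρ ⊆ E := by
      intro i
      have h1 : Metric.closedBall (w' i) ρ ⊆
          Metric.cthickening ρ (Metric.cthickening (1 / ((n : ℝ) + 1)) K) :=
        Metric.closedBall_subset_cthickening (hw' i) _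
      have h2 := Metric.cthickening_cthickening_subset hρpos.le hε'.le K
      have h3 : ρ + 1 / ((n : ℝ) + 1) = 1 / n := by
        rw [hρ]; field_simp; ring
      rw [h3] at h2
      exact h1.trans h2
    have hlow := capacity_lower hn0 w' hV' hρpos hball
    rw [hcE, ENNReal.ofReal_le_ofReal_iff (Real.exp_pos _).le, Real.exp_le_exp] at hlow
    have hlogρ : Real.log ρ = -Real.log (n * (n + 1)) := by
      rw [hρ, one_div, Real.log_inv]
    have h5 : Real.log (V2 w') ≤ n ^ 2 * c + n * Real.log (n * (n + 1)) := by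
      have h6 : (n : ℝ) ^ 2 * ((n : ℝ)⁻¹ * ((n : ℝ)⁻¹ * (Real.log (V2 w') + n * Real.log ρ))) =
          Real.log (V2 w') + n * Real.log ρ := by field_simp
      have h7 := mul_le_mul_of_nonneg_left hlow (by positivity : (0 : ℝ) ≤ (n : ℝ) ^ 2)
      rw [h6, hlogρ] at h7
      linarith
    have h8 : Real.log (V2 w) ≤ 2 * n * (n - 1) * Real.log (1 + 1 / n) + Real.log (V2 w') := by
      have h9 := Real.log_le_log h0 hVle
      rw [Real.log_mul (by positivity) hV'.ne', Real.log_pow, Real.log_pow, Real.log_pow,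
        Nat.cast_sub (by omega)] at h9
      push_cast at h9
      linarith
    rw [Real.rpow_def_of_pos h0, Real.exp_le_exp]
    have h10 : Real.log (V2 w) ≤ n * (n - 1) * (2 * Real.log (1 + 1 / n) +
        (n / (n - 1)) * c + Real.log (n * (n + 1)) / (n - 1)) := by
      have e : (n : ℝ) * (n - 1) * (2 * Real.log (1 + 1 / n) +
        (n / (n - 1)) * c + Real.log (n * (n + 1)) / (n - 1)) =
        2 * n * (n - 1) * Real.log (1 + 1 / n) + (n ^ 2 * c + n * Real.log (n * (n + 1))) := by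
        field_simp
        ring
      rw [e]
      linarith
    calc Real.log (V2 w) * (1 / ((n : ℝ) * (n - 1))) ≤
        (n * (n - 1) * (2 * Real.log (1 + 1 / n) +
        (n / (n - 1)) * c + Real.log (n * (n + 1)) / (n - 1))) * (1 / ((n : ℝ) * (n - 1))) := by
          gcongr
      _ = _ := by field_simp
  have hdiam : nthDiameter n E ≤ Real.exp (2 * Real.log (1 + 1 / n) +
        (n / (n - 1)) * c + Real.log (n * (n + 1)) / (n - 1)) := by
    unfold nthDiameter
    refine csSup_le ?_ ?_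
    · obtain ⟨z, hz⟩ := hKne
      exact ⟨_, fun _ => z, fun _ => Metric.self_subset_cthickening K hz, rfl⟩
    · rintro x ⟨w, hw, rfl⟩
      rw [diameter_term]
      exact hterm w hw
  rw [hcE, ← ENNReal.ofReal_mul (Real.exp_pos _).le, ← Real.exp_add]
  refine ENNReal.ofReal_le_ofReal (hdiam.trans (Real.exp_le_exp.2 ?_))
  have e1 : (n : ℝ) / (n - 1) * c = c + c / (n - 1) := by field_simp; ring
  rw [e1, add_div]
  have e2 : c / (n - 1) ≤ Real.log (2 * (R + 1)) / (n - 1) := by gcongr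
  linarith

/-- **Q1 holds**: for every nonempty compact `K` in the plane the ratio of the `n`-th diameter to
the capacity of the closed `1/n`-neighbourhood of `K` tends to `1`. -/
theorem result : ∀ K : Set ℂ, IsCompact K → K.Nonempty →
    Tendsto (fun n : ℕ => ENNReal.ofReal (nthDiameter n (Metric.cthickening (1 / (n : ℝ)) K)) /
      capacity (Metric.cthickening (1 / (n : ℝ)) K)) atTop (𝓝 1) := by
  intro K hK hKne
  obtain ⟨R0, hR0⟩ := hK.isBounded.exists_norm_le
  set R : ℝ := max 0 R0 with hRdef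
  have hR0' : 0 ≤ R := le_max_left _ _
  have hR : ∀ z ∈ K, ‖z‖ ≤ R := fun z hz => (hR0 z hz).trans (le_max_right _ _)
  -- the upper bound tends to 1
  have hexp : Tendsto (fun n : ℕ => 2 * Real.log (1 + 1 / n) +
        (Real.log (2 * (R + 1)) + Real.log (n * (n + 1))) / ((n : ℝ) - 1)) atTop (𝓝 0) := by
    have h1 : Tendsto (fun n : ℕ => 2 * Real.log (1 + 1 / (n : ℝ))) atTop (𝓝 0) := by
      have h2 : Tendsto (fun n : ℕ => 1 + 1 / (n : ℝ)) atTop (𝓝 (1 + 0)) :=
        tendsto_const_nhds.add tendsto_one_div_atTop_nhds_zero_nat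
      rw [add_zero] at h2
      have h3 := ((Real.continuousAt_log one_ne_zero).tendsto.comp h2).const_mul 2
      simpa [Function.comp_def] using h3
    have hlogn : Tendsto (fun n : ℕ => Real.log (n : ℝ) / n) atTop (𝓝 0) := by
      have h2 : Tendsto (fun x : ℝ => Real.log x / x) atTop (𝓝 0) := by
        have := Real.isLittleO_log_id_atTop.tendsto_div_nhds_zero
        simpa using this
      exact h2.comp tendsto_natCast_atTop_atTop
    have hlogn1 : Tendsto (fun n : ℕ => Real.log ((n : ℝ) + 1) / ((n : ℝ) + 1)) atTop (𝓝 0) := by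
      have h2 : Tendsto (fun x : ℝ => Real.log x / x) atTop (𝓝 0) := by
        have := Real.isLittleO_log_id_atTop.tendsto_div_nhds_zero
        simpa using this
      exact h2.comp ((tendsto_natCast_atTop_atTop (R := ℝ)).atTop_add tendsto_const_nhds)
    have hinv : Tendsto (fun n : ℕ => ((n : ℝ) - 1)⁻¹) atTop (𝓝 0) :=
      tendsto_inv_atTop_zero.comp
        ((tendsto_natCast_atTop_atTop (R := ℝ)).atTop_add (tendsto_const_nhds (x := (-1 : ℝ))))
    have hr1 : Tendsto (fun n : ℕ => (n : ℝ) / ((n : ℝ) - 1)) atTop (𝓝 1) := by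
      have h2 := (tendsto_const_nhds (x := (1 : ℝ))).add hinv
      rw [add_zero] at h2
      refine h2.congr' ?_
      filter_upwards [eventually_ge_atTop 2] with n hn
      have : (2 : ℝ) ≤ n := by exact_mod_cast hn
      have : (n : ℝ) - 1 ≠ 0 := by linarith
      field_simp
      ring
    have hr2 : Tendsto (fun n : ℕ => ((n : ℝ) + 1) / ((n : ℝ) - 1)) atTop (𝓝 1) := by
      have h2 := hr1.add hinv
      rw [add_zero] at h2
      refine h2.congr fun n => ?_
      ring
    have h4 := (hinv.const_mul (Real.log (2 * (R + 1)))).add ((hlogn.mul hr1).add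
      (hlogn1.mul hr2))
    simp only [mul_zero, zero_mul, add_zero] at h4
    have h5 := h1.add h4
    rw [add_zero] at h5
    refine h5.congr' ?_
    filter_upwards [eventually_ge_atTop 2] with n hn
    have h6 : (2 : ℝ) ≤ n := by exact_mod_cast hn
    have h7 : (n : ℝ) - 1 ≠ 0 := by linarith
    have h8 : (n : ℝ) ≠ 0 := by linarith
    have h9 : (n : ℝ) + 1 ≠ 0 := by linarith
    rw [Real.log_mul h8 h9]
    field_simp
  have hupper : Tendsto (fun n : ℕ => ENNReal.ofReal (Real.exp (2 * Real.log (1 + 1 / n) +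
        (Real.log (2 * (R + 1)) + Real.log (n * (n + 1))) / ((n : ℝ) - 1)))) atTop (𝓝 1) := by
    have h1 := (ENNReal.continuous_ofReal.tendsto _).comp ((Real.continuous_exp.tendsto 0).comp hexp)
    rw [Real.exp_zero, ENNReal.ofReal_one] at h1
    exact h1
  refine tendsto_of_tendsto_of_tendsto_of_le_of_le' tendsto_const_nhds hupper ?_ ?_
  · filter_upwards [eventually_ge_atTop 2] with n hn
    obtain ⟨h0, hT, -⟩ := main_bound hK hKne hR0' hR hn
    rw [ENNReal.le_div_iff_mul_le (Or.inl h0) (Or.inl hT), one_mul]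
    exact capacity_le_diameter hn hK.cthickening
  · filter_upwards [eventually_ge_atTop 2] with n hn
    obtain ⟨h0, hT, h1⟩ := main_bound hK hKne hR0' hR hn
    exact (ENNReal.div_le_iff_le_mul (Or.inl h0) (Or.inl hT)).2 h1

end Pool.Agent.Results.MP_d057eb_an.ShrinkingNeighbourhoods
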